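import Pool.Agent.Helper48.NQ.C
import Pool.Agent.R577.Reset.Closure
import Pool.Agent.H656R2.AK.AKIn

/-!
# Polynomial space and nondeterministic parity prediction: the easy direction
-/

set_option autoImplicit false

namespace Pool.Agent.Helper48.NQ

open Pool.Agent.NPC
open Pool.Agent.H623R2.PS (InPSPACE PSPACEHard)
open Pool.Agent.Helper70K1.NQ (NPredictable SNReduces)

/-- **(B1)** If polynomial space is contained in `NP` then every language in polynomial space is
parity predictable by a nondeterministic algorithm. -/
theorem npredictable_of_collapse (h : ∀ L : Set (List Bool), InPSPACE L → InNP L)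
    {L : Set (List Bool)} (hL : InPSPACE L) : NPredictable L :=
  npredictable_of_np (h L hL) (h Lᶜ (Pool.Agent.R577.Reset.inPSPACE_compl hL))

/-- **(B2)** There is a complete language for polynomial space. -/
theorem exists_complete : ∃ K : Set (List Bool), InPSPACE K ∧ PSPACEHard K :=
  ⟨lang Pool.Agent.H656R2.AK.ArcKayles, Pool.Agent.H656R2.AK.arcKayles_mem,
    Pool.Agent.H656R2.AK.arcKayles_hard⟩

/-- The equivalences, given the hard direction. -/
theorem tfae_of (hard : (∀ L : Set (List Bool), InPSPACE L → NPredictable L) →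
      ∀ L : Set (List Bool), InPSPACE L → InNP L) :
    [∀ L : Set (List Bool), InPSPACE L → InNP L,
     ∀ L : Set (List Bool), InPSPACE L → NPredictable L,
     ∃ K : Set (List Bool), PSPACEHard K ∧ NPredictable K,
     ∃ K : Set (List Bool), (∀ L : Set (List Bool), InPSPACE L → SNReduces L K) ∧
       NPredictable K].TFAE := by
  tfae_have 1 → 2 := fun h L hL => npredictable_of_collapse h hL
  tfae_have 2 → 3 := fun h => by
    obtain ⟨K, hK, hK'⟩ := exists_complete
    exact ⟨K, hK', h K hK⟩
  tfae_have 3 → 4 := fun ⟨K, hK, hK'⟩ => ⟨K, fun L hL => snreduces_of_reduces (hK L hL), hK'⟩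
  tfae_have 4 → 2 := fun ⟨K, hK, hK'⟩ L hL => NPredictable.of_snreduces hK' (hK L hL)
  tfae_have 2 → 1 := hard
  tfae_finish

end Pool.Agent.Helper48.NQ
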