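import Pool.Agent.Helper70K1.NQ.Defs
import Pool.Agent.Helper48.NB.BPP

/-!
# Languages in `NP ∩ coNP` are parity predictable by a nondeterministic algorithm
-/

set_option autoImplicit false

namespace Pool.Agent.Helper48.NQ

open Pool.Agent.NPC
open Pool.Agent.Helper6K1.BN (poly_pairBits)
open Pool.Agent.Helper70K1.PP (holds par)
open Pool.Agent.Helper70K1.SP (poly_of_polyTime polyTime_of_typed poly_bits)
open Pool.Agent.Helper70K1.NQ (NPredictable)
open Pool.Agent.Helper48.NB (length_le_sz_of_mem par_zero)

/-- The list of strings. -/
def gX (y : List Bool) : List (List Bool) := (unbits (List (List Bool)) (unpair y).1).getD []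

/-- The first string. -/
def gx (y : List Bool) : List Bool := ((gX y).head?).getD []

/-- The guessed value. -/
def gb (y : List Bool) : Bool := ((unpair y).2.head?).getD false

/-- The guessed certificate. -/
def gc (y : List Bool) : List Bool := (unpair y).2.tail

/-- The check of the guess. -/
def chk (V V' : List Bool → List Bool) (p p' : Polynomial ℕ) (y : List Bool) : Bool :=
  if gb y = true then decide ((gc y).length ≤ p.eval (gx y).length ∧
      V (pairBits (gx y) (gc y)) = [true])
  else decide ((gc y).length ≤ p'.eval (gx y).length ∧ V' (pairBits (gx y) (gc y)) = [true])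

/-- The prediction: the first string has the guessed value. -/
def gA (V V' : List Bool → List Bool) (p p' : Polynomial ℕ) (y : List Bool) :
    List (List Bool × Bool) :=
  if chk V V' p p' y = true then [((gX y).zipIdx.map fun p => decide (p.2 = 0), gb y)] else []

theorem gX_poly : NPC.Poly gX :=
  NPC.Poly.optGetD (poly_unbits.comp (NPC.Poly.fst poly_unpair)) (NPC.Poly.const _)

theorem gx_poly : NPC.Poly gx := NPC.Poly.optGetD (NPC.Poly.head? gX_poly) (NPC.Poly.const _)

theorem gb_poly : NPC.Poly gb :=
  NPC.Poly.optGetD (NPC.Poly.head? (NPC.Poly.snd poly_unpair)) (NPC.Poly.const _)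

theorem gc_poly : NPC.Poly gc := NPC.Poly.tail (NPC.Poly.snd poly_unpair)

theorem chk_poly {V V' : List Bool → List Bool} (hV : PolyTime V) (hV' : PolyTime V')
    (p p' : Polynomial ℕ) : NPC.Poly (chk V V' p p') := by
  unfold chk
  have h1 : ∀ {W : List Bool → List Bool} (_ : PolyTime W) (r : Polynomial ℕ),
      NPC.Poly (fun y => decide ((gc y).length ≤ r.eval (gx y).length ∧
        W (pairBits (gx y) (gc y)) = [true])) := by
    intro W hW r
    exact NPC.Poly.decide_and (NPC.Poly.decide_le (UPoly.length gc_poly).toPoly
      ((UPoly.length gx_poly).eval r).toPoly)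
      (NPC.Poly.decide_eq ((poly_of_polyTime hW).comp (poly_pairBits gx_poly gc_poly))
        (NPC.Poly.const [true]))
  exact NPC.Poly.ite (NPC.Poly.decide_bool gb_poly) (h1 hV p) (h1 hV' p')

theorem gA_poly {V V' : List Bool → List Bool} (hV : PolyTime V) (hV' : PolyTime V')
    (p p' : Polynomial ℕ) : NPC.Poly (gA V V' p p') := by
  unfold gA
  refine NPC.Poly.ite (NPC.Poly.decide_bool (chk_poly hV hV' p p')) ?_ (NPC.Poly.const [])
  refine NPC.Poly.cons (NPC.Poly.pair (NPC.Poly.map (F := fun _ (p : List Bool × ℕ) =>
    decide (p.2 = 0)) (NPC.Poly.zipIdx gX_poly) ?_) gb_poly) (NPC.Poly.const [])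
  exact NPC.Poly.decide_eq (NPC.Poly.snd (NPC.Poly.snd NPC.Poly.id)) (NPC.Poly.const 0)

open Classical in
/-- **(A)** A language that is in `NP` with its complement is parity predictable by a
nondeterministic algorithm. -/
theorem npredictable_of_np {L : Set (List Bool)} (h : InNP L) (h' : InNP Lᶜ) :
    NPredictable L := by
  obtain ⟨V, p, hV, hL⟩ := h
  obtain ⟨V', p', hV', hL'⟩ := h'
  refine ⟨Polynomial.C 2, p + p' + 1, gA V V' p p',
    polyTime_of_typed (poly_bits (gA_poly hV hV' p p')), fun n xs _ hxs => ?_⟩
  rw [Polynomial.eval_C] at hxs ⊢
  cases xs with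
  | nil => simp at hxs
  | cons x xs =>
    have hX : ∀ w, gX (pairBits (bits (x :: xs)) w) = x :: xs := by
      intro w
      simp only [gX, unpair_pairBits, unbits_bits, Option.getD_some]
    have hx : ∀ w, gx (pairBits (bits (x :: xs)) w) = x := by
      intro w
      simp only [gx, hX, List.head?_cons, Option.getD_some]
    have hb : ∀ w, gb (pairBits (bits (x :: xs)) w) = w.head?.getD false := by
      intro w
      simp only [gb, unpair_pairBits]
    have hc : ∀ w, gc (pairBits (bits (x :: xs)) w) = w.tail := by
      intro w
      simp only [gc, unpair_pairBits]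
    have hlen : x.length ≤ (bits (x :: xs)).length := length_le_sz_of_mem (by simp)
    have hchk : ∀ w, chk V V' p p' (pairBits (bits (x :: xs)) w) = true →
        w.head?.getD false = decide (x ∈ L) := by
      intro w hw
      unfold chk at hw
      rw [hx, hb, hc] at hw
      cases hwb : w.head?.getD false with
      | true =>
        rw [hwb, if_pos rfl, decide_eq_true_iff] at hw
        exact (decide_eq_true ((hL x).2 ⟨w.tail, hw⟩)).symm
      | false =>
        rw [hwb, if_neg (by simp), decide_eq_true_iff] at hw
        exact (decide_eq_false ((hL' x).2 ⟨w.tail, hw⟩)).symm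
    constructor
    · -- some guess is accepted
      by_cases hxL : x ∈ L
      · obtain ⟨c, hc1, hc2⟩ := (hL x).1 hxL
        refine ⟨true :: c, ?_, ?_⟩
        · rw [List.length_cons]
          have e1 := eval_mono p hlen
          simp only [Polynomial.eval_add, Polynomial.eval_one]
          omega
        · have e : chk V V' p p' (pairBits (bits (x :: xs)) (true :: c)) = true := by
            unfold chk
            rw [hx, hb, hc]
            simp [hc1, hc2]
          unfold gA
          rw [if_pos e]
          simp
      · obtain ⟨c, hc1, hc2⟩ := (hL' x).1 hxL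
        refine ⟨false :: c, ?_, ?_⟩
        · rw [List.length_cons]
          have e1 := eval_mono p' hlen
          simp only [Polynomial.eval_add, Polynomial.eval_one]
          omega
        · have e : chk V V' p p' (pairBits (bits (x :: xs)) (false :: c)) = true := by
            unfold chk
            rw [hx, hb, hc]
            simp [hc1, hc2]
          unfold gA
          rw [if_pos e]
          simp
    · intro w _ hne
      have e : chk V V' p p' (pairBits (bits (x :: xs)) w) = true := by
        by_contra hcon
        exact hne (by unfold gA; rw [if_neg hcon])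
      have e2 : gA V V' p p' (pairBits (bits (x :: xs)) w) =
          [((x :: xs).zipIdx.map fun p => decide (p.2 = 0), decide (x ∈ L))] := by
        unfold gA
        rw [if_pos e, hX, hb, hchk w e]
      rw [e2]
      constructor
      · intro e' he'
        rw [List.mem_singleton] at he'
        subst he'
        refine ⟨by simp, ?_⟩
        simp only [List.zipIdx_cons, List.map_cons, decide_true]
        exact List.mem_cons_self
      · have h1 : holds ((x :: xs).map fun x => decide (x ∈ L))
            ((x :: xs).zipIdx.map fun p => decide (p.2 = 0), decide (x ∈ L)) = true := by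
          unfold holds
          simp only [List.map_cons, List.zipIdx_cons, List.zipWith_cons_cons, decide_true,
            Bool.true_and, zero_add]
          change ((decide (x ∈ L) ^^ par _) == decide (x ∈ L)) = true
          rw [par_zero xs (fun x => decide (x ∈ L)) 1 one_pos]
          simp
        rw [List.filter_cons, if_pos h1]
        simp

end Pool.Agent.Helper48.NQ
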