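import Pool.Agent.Helper48.NQ.A

/-!
# Nondeterministic parity prediction is inherited under strong nondeterministic reductions
-/

set_option autoImplicit false

namespace Pool.Agent.Helper48.NQ

open Pool.Agent.NPC
open Pool.Agent.Helper6K1.BN (poly_pairBits)
open Pool.Agent.Helper70K1.PP (holds par)
open Pool.Agent.Helper70K1.SP (poly_of_polyTime polyTime_of_typed poly_bits)
open Pool.Agent.Helper70K1.NQ (NPredictable SNReduces)
open Pool.Agent.Helper48.NB (length_le_sz_of_mem)

theorem pairBits_len (x w : List Bool) : (pairBits x w).length = 2 * x.length + 1 + w.length := by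
  have h : (x.flatMap fun b => [true, b]).length = 2 * x.length := by
    induction x with
    | nil => rfl
    | cons b x ih => rw [List.flatMap_cons, List.length_append, ih]; simp; ring
  unfold pairBits
  rw [List.length_append, h, List.length_cons]
  ring

/-- a function whose code is computed in polynomial time, after a typed function -/
theorem poly_gL {g : List Bool → List (List Bool × Bool)} (hg : PolyTime fun y => bits (g y))
    {β : Type} [TEnc β] {Q : β → List Bool} (hQ : NPC.Poly Q) : NPC.Poly (fun x => g (Q x)) := by
  have h1 : NPC.Poly (fun x => bits (g (Q x))) := (poly_of_polyTime hg).comp hQ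
  have h2 : NPC.Poly (fun x => (unbits (List (List Bool × Bool)) (bits (g (Q x)))).getD []) :=
    NPC.Poly.optGetD (poly_unbits.comp h1) (NPC.Poly.const _)
  refine h2.congr fun x => ?_
  rw [unbits_bits]
  rfl

/-- The guess: the certificates of the reduction, and the guess for the target. -/
def gG (y : List Bool) : List (List Bool) × List Bool :=
  (unbits (List (List Bool) × List Bool) (unpair y).2).getD ([], [])

/-- The pairs of the strings and their certificates. -/
def gZ (y : List Bool) : List (List Bool × List Bool) := (gX y).zip (gG y).1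

/-- The strings in question for the target. -/
def gY (f : List Bool → List Bool) (y : List Bool) : List (List Bool) :=
  (gZ y).map fun p => f (pairBits p.1 p.2)

/-- The certificates are right. -/
def chC (f V : List Bool → List Bool) (q qK : Polynomial ℕ) (y : List Bool) : Bool :=
  (decide ((gX y).length = (gG y).1.length) &&
    (gZ y).all fun p => decide (p.2.length ≤ q.eval p.1.length ∧ V (pairBits p.1 p.2) = [true])) &&
    decide ((gG y).2.length ≤ qK.eval (bits (gY f y)).length)

/-- The prediction. -/
def gC (g : List Bool → List (List Bool × Bool)) (f V : List Bool → List Bool)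
    (q qK : Polynomial ℕ) (y : List Bool) : List (List Bool × Bool) :=
  if chC f V q qK y = true then g (pairBits (bits (gY f y)) (gG y).2) else []

theorem gG_poly : NPC.Poly gG :=
  NPC.Poly.optGetD (poly_unbits.comp (NPC.Poly.snd poly_unpair)) (NPC.Poly.const _)

theorem gZ_poly : NPC.Poly gZ := NPC.Poly.zip gX_poly (NPC.Poly.fst gG_poly)

theorem gY_poly {f : List Bool → List Bool} (hf : PolyTime f) : NPC.Poly (gY f) := by
  unfold gY
  exact NPC.Poly.map (F := fun _ (p : List Bool × List Bool) => f (pairBits p.1 p.2)) gZ_poly
    ((poly_of_polyTime hf).comp (poly_pairBits (NPC.Poly.fst (NPC.Poly.snd NPC.Poly.id))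
      (NPC.Poly.snd (NPC.Poly.snd NPC.Poly.id))))

theorem chC_poly {f V : List Bool → List Bool} (hf : PolyTime f) (hV : PolyTime V)
    (q qK : Polynomial ℕ) : NPC.Poly (chC f V q qK) := by
  unfold chC
  have g1 : NPC.Poly (fun a : List Bool × (List Bool × List Bool) => a.2.1) :=
    NPC.Poly.fst (NPC.Poly.snd NPC.Poly.id)
  have g2 : NPC.Poly (fun a : List Bool × (List Bool × List Bool) => a.2.2) :=
    NPC.Poly.snd (NPC.Poly.snd NPC.Poly.id)
  refine NPC.Poly.and (NPC.Poly.and ?_ ?_) ?_
  · exact NPC.Poly.decide_eq (UPoly.length gX_poly).toPoly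
      (UPoly.length (NPC.Poly.fst gG_poly)).toPoly
  · refine NPC.Poly.all (p := fun _ (p : List Bool × List Bool) =>
      decide (p.2.length ≤ q.eval p.1.length ∧ V (pairBits p.1 p.2) = [true])) gZ_poly ?_
    exact NPC.Poly.decide_and (NPC.Poly.decide_le (UPoly.length g2).toPoly
      ((UPoly.length g1).eval q).toPoly)
      (NPC.Poly.decide_eq ((poly_of_polyTime hV).comp (poly_pairBits g1 g2))
        (NPC.Poly.const [true]))
  · exact NPC.Poly.decide_le (UPoly.length (NPC.Poly.snd gG_poly)).toPoly
      ((UPoly.length (poly_bits (gY_poly hf))).eval qK).toPoly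

theorem gC_poly {g : List Bool → List (List Bool × Bool)} (hg : PolyTime fun y => bits (g y))
    {f V : List Bool → List Bool} (hf : PolyTime f) (hV : PolyTime V)
    (q qK : Polynomial ℕ) : NPC.Poly (gC g f V q qK) := by
  unfold gC
  exact NPC.Poly.ite (NPC.Poly.decide_bool (chC_poly hf hV q qK))
    (poly_gL hg (poly_pairBits (poly_bits (gY_poly hf)) (NPC.Poly.snd gG_poly)))
    (NPC.Poly.const [])

open Classical in
/-- **(C)** Nondeterministic parity prediction is inherited under strong nondeterministic
reductions. -/
theorem NPredictable.of_snreduces {L K : Set (List Bool)} (hK : NPredictable K)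
    (h : SNReduces L K) : NPredictable L := by
  obtain ⟨P, qK, g, hg, hP⟩ := hK
  obtain ⟨f, V, q, hf, hV, hL⟩ := h
  obtain ⟨pf, hpf⟩ := (poly_of_polyTime hf).sz_le
  set F : Polynomial ℕ := pf.comp (Polynomial.C 4 * (Polynomial.C 2 * Polynomial.X +
    Polynomial.C 1 + q) + Polynomial.C 1) with hF
  have hFe : ∀ n, F.eval n = pf.eval (4 * (2 * n + 1 + q.eval n) + 1) := fun n => by
    simp [hF]
  clear_value F
  have hsz : ∀ (n : ℕ) (x w : List Bool), x.length ≤ n → w.length ≤ q.eval x.length →
      sz (f (pairBits x w)) ≤ F.eval n := by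
    intro n x w hx hw
    have e1 := hpf (pairBits x w)
    have e2 := sz_listBool_le (pairBits x w)
    rw [pairBits_len] at e2
    have e3 := eval_mono q hx
    have e4 := eval_mono pf (m := sz (pairBits x w)) (n := 4 * (2 * n + 1 + q.eval n) + 1)
      (by omega)
    rw [hFe]
    exact e1.trans e4
  set Q : Polynomial ℕ := Polynomial.X * (Polynomial.C 4 * q + Polynomial.C 2) +
    Polynomial.C 4 * qK.comp (Polynomial.X * (F + Polynomial.C 1) + Polynomial.C 1) +
      Polynomial.C 3 with hQ
  have hQe : ∀ s, Q.eval s = s * (4 * q.eval s + 2) + 4 * qK.eval (s * (F.eval s + 1) + 1) + 3 :=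
    fun s => by simp [hQ]
  clear_value Q
  refine ⟨P.comp F, Q, gC g f V q qK, polyTime_of_typed (poly_bits (gC_poly hg hf hV q qK)),
    fun n xs hxs hlen => ?_⟩
  rw [Polynomial.eval_comp] at hlen ⊢
  have hX : ∀ w, gX (pairBits (bits xs) w) = xs := by
    intro w
    simp only [gX, unpair_pairBits, unbits_bits, Option.getD_some]
  -- the strings for the target
  have hmain : ∀ ws : List (List Bool), xs.length = ws.length →
      (∀ p ∈ xs.zip ws, p.2.length ≤ q.eval p.1.length ∧ V (pairBits p.1 p.2) = [true]) →
      (∀ y ∈ (xs.zip ws).map (fun p => f (pairBits p.1 p.2)), y.length ≤ F.eval n) ∧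
      ((xs.zip ws).map fun p => f (pairBits p.1 p.2)).length = xs.length ∧
      (((xs.zip ws).map fun p => f (pairBits p.1 p.2)).map fun y => decide (y ∈ K)) =
        xs.map fun x => decide (x ∈ L) := by
    intro ws hws hall
    refine ⟨?_, ?_, ?_⟩
    · intro y hy
      obtain ⟨p, hp, rfl⟩ := List.mem_map.1 hy
      have e1 := hsz n p.1 p.2 (hxs p.1 (List.of_mem_zip hp).1) (hall p hp).1
      have e2 := length_lt_sz (f (pairBits p.1 p.2))
      omega
    · rw [List.length_map, List.length_zip]
      omega
    · rw [List.map_map]
      have e1 : (xs.zip ws).map ((fun y => decide (y ∈ K)) ∘ fun p : List Bool × List Bool =>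
          f (pairBits p.1 p.2)) = (xs.zip ws).map ((fun x => decide (x ∈ L)) ∘ Prod.fst) := by
        refine List.map_congr_left fun p hp => ?_
        simp only [Function.comp]
        rw [decide_eq_decide]
        exact ((hL p.1).2 p.2 (hall p hp).1 (hall p hp).2).symm
      rw [e1, ← List.map_map, List.map_fst_zip (by omega)]
  constructor
  · choose c hc1 hc2 using fun x => (hL x).1
    obtain ⟨h1, h2, -⟩ := hmain (xs.map c) (by simp) (by
      intro p hp
      rw [List.zip_map_right, List.mem_map] at hp
      obtain ⟨⟨a, b⟩, hab, rfl⟩ := hp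
      have hab' : a = b := by
        have := List.mem_iff_getElem.1 hab
        obtain ⟨i, hi, e⟩ := this
        rw [List.getElem_zip, Prod.mk.injEq] at e
        rw [← e.1, ← e.2]
      subst hab'
      exact ⟨hc1 a, hc2 a⟩)
    set ys := (xs.zip (xs.map c)).map (fun p => f (pairBits p.1 p.2)) with hys
    obtain ⟨⟨w', hw', hne⟩, -⟩ := hP (F.eval n) ys h1 (by rw [h2]; exact hlen)
    have hG : gG (pairBits (bits xs) (bits (xs.map c, w'))) = (xs.map c, w') := by
      simp only [gG, unpair_pairBits, unbits_bits, Option.getD_some]
    have hZ : gZ (pairBits (bits xs) (bits (xs.map c, w'))) = xs.zip (xs.map c) := by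
      unfold gZ
      rw [hX, hG]
    have hY : gY f (pairBits (bits xs) (bits (xs.map c, w'))) = ys := by
      unfold gY
      rw [hZ]
    refine ⟨bits (xs.map c, w'), ?_, ?_⟩
    · set s := (bits xs).length with hs
      have hsx : ∀ x ∈ xs, x.length ≤ s := fun x hx => length_le_sz_of_mem hx
      have hsl : xs.length ≤ s := by
        rw [hs, bits_length]
        exact (length_lt_sz xs).le
      have e1 : sz (xs.map c) ≤ s * (4 * q.eval s + 2) + 1 := by
        refine (sz_le_length_mul (xs.map c) (4 * q.eval s + 1) ?_).trans ?_
        · intro w hw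
          obtain ⟨x, hx, rfl⟩ := List.mem_map.1 hw
          have g1 := sz_listBool_le (c x)
          have g2 := hc1 x
          have g3 := eval_mono q (hsx x hx)
          omega
        · rw [List.length_map]
          exact Nat.add_le_add_right (Nat.mul_le_mul_right (4 * q.eval s + 2) hsl) 1
      have e2 : sz ys ≤ s * (F.eval s + 1) + 1 := by
        refine (sz_le_length_mul ys (F.eval s) ?_).trans ?_
        · intro y hy
          rw [hys] at hy
          obtain ⟨p, hp, rfl⟩ := List.mem_map.1 hy
          have hp1 := (List.of_mem_zip hp).1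
          refine hsz s p.1 p.2 (hsx _ hp1) ?_
          rw [List.zip_map_right, List.mem_map] at hp
          obtain ⟨⟨a, b⟩, hab, rfl⟩ := hp
          have hab' : a = b := by
            have := List.mem_iff_getElem.1 hab
            obtain ⟨i, hi, e⟩ := this
            rw [List.getElem_zip, Prod.mk.injEq] at e
            rw [← e.1, ← e.2]
          subst hab'
          exact hc1 a
        · rw [h2]
          have := Nat.mul_le_mul_right (F.eval s + 1) hsl
          omega
      have e3 : w'.length ≤ qK.eval (s * (F.eval s + 1) + 1) := by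
        refine hw'.trans (eval_mono qK ?_)
        rw [bits_length]
        exact e2
      have e4 := sz_listBool_le w'
      rw [bits_length, sz_pair, hQe]
      omega
    · have e : chC f V q qK (pairBits (bits xs) (bits (xs.map c, w'))) = true := by
        unfold chC
        rw [hX, hG, hZ, hY]
        simp only [Bool.and_eq_true, decide_eq_true_eq, List.all_eq_true]
        refine ⟨⟨by simp, ?_⟩, hw'⟩
        intro p hp
        rw [List.zip_map_right, List.mem_map] at hp
        obtain ⟨⟨a, b⟩, hab, rfl⟩ := hp
        have hab' : a = b := by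
          have := List.mem_iff_getElem.1 hab
          obtain ⟨i, hi, e⟩ := this
          rw [List.getElem_zip, Prod.mk.injEq] at e
          rw [← e.1, ← e.2]
        subst hab'
        exact ⟨hc1 a, hc2 a⟩
      unfold gC
      rw [if_pos e, hY, hG]
      exact hne
  · intro w _ hne
    have e : chC f V q qK (pairBits (bits xs) w) = true := by
      by_contra hcon
      exact hne (by unfold gC; rw [if_neg hcon])
    have e2 : gC g f V q qK (pairBits (bits xs) w) = g (pairBits (bits (gY f (pairBits (bits xs) w)))
        (gG (pairBits (bits xs) w)).2) := by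
      unfold gC
      rw [if_pos e]
    rw [e2] at hne ⊢
    have hY : gY f (pairBits (bits xs) w) = (xs.zip (gG (pairBits (bits xs) w)).1).map
        fun p => f (pairBits p.1 p.2) := by
      unfold gY gZ
      rw [hX]
    unfold chC at e
    rw [hX] at e
    simp only [gZ, hX] at e
    simp only [Bool.and_eq_true, decide_eq_true_eq, List.all_eq_true] at e
    obtain ⟨⟨h1, h2⟩, h3⟩ := e
    obtain ⟨g1, g2, g3⟩ := hmain _ h1 h2
    rw [← hY] at g1 g2 g3
    obtain ⟨-, h4⟩ := hP (F.eval n) _ g1 (by rw [g2]; exact hlen)
    have h5 := h4 _ h3 hne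
    rw [g2, g3] at h5
    exact h5

/-- Polynomial-time many-one reductions are strong nondeterministic reductions. -/
theorem snreduces_of_reduces {L K : Set (List Bool)} (h : Reduces L K) : SNReduces L K := by
  obtain ⟨φ, hφ, hL⟩ := h
  refine ⟨fun y => φ (unpair y).1, fun _ => [true], 0,
    polyTime_of_typed ((poly_of_polyTime hφ).comp (NPC.Poly.fst poly_unpair)),
    polyTime_of_typed (NPC.Poly.const [true]), fun x => ⟨⟨[], by simp, rfl⟩, fun w _ _ => ?_⟩⟩
  rw [hL x]
  simp only [unpair_pairBits]

theorem NPredictable.of_reduces {L K : Set (List Bool)} (hK : NPredictable K)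
    (h : Reduces L K) : NPredictable L :=
  NPredictable.of_snreduces hK (snreduces_of_reduces h)

end Pool.Agent.Helper48.NQ
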